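import Pool.Agent.Q5.MS.Lead
import Pool.Agent.Results.MP_ae0bd0_nt.MeanProduct

/-!
# The leading coefficient from sharp products over primes, in mean square, over number fields

Let `K` be a number field, `E : y² = x³ + a x + b` an elliptic curve with `a, b ∈ 𝓞_K`, and let `F` be a
continuation of the `L`-series of `E/K` (product over the primes `v ∤ 6Δ`) to a half plane `Re s > 1 - η`, analytic
except perhaps for a pole at `s = 1`, of polynomial growth. Let

`P(y) = ∏_{Nv ≤ y} #E(k_v)/Nv`,  `P*(y) = exp (- ∑_{Nv^k ≤ y} (α_v^k + β_v^k)/(k Nv^k))`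

be the original product of Birch and Swinnerton-Dyer and the product with the prime powers, both with the SHARP
cut-off. Then for all real `ρ` and all `A > 0` the following are equivalent:

* `ρ` is an integer, `F(s)/(s - 1)^ρ → A` for `s → 1`, and `F` has no zeros with `Re s > 1`;
* `∫_e^∞ (log (A P*(y) / (e^γ log y)^ρ))² dy/y < ∞`;
* `(log Y)⁻¹ ∫_e^Y |log (A P*(y) / (e^γ log y)^ρ)| dy/y → 0`;
* if moreover `∑_{√y < Nv ≤ y} (a_v² - 2 Nv)/(2 Nv²) → c` (by Rankin and Selberg this is known for automorphic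
  `E/K`, with `c = -(log 2)/2` without complex multiplication over `K`):
  `(log Y)⁻¹ ∫_e^Y |log (A e^c P(y) / (e^γ log y)^ρ)| dy/y → 0`, a statement on the original product.

In this case `P*(y) ∼ (e^γ log y)^ρ/A` outside of sets of finite logarithmic measure. The conjecture of
Birch and Swinnerton-Dyer for `E/K` predicts `ρ = rk E(K)` and the number `A`; with these values the law says exactly:
the conjecture of Birch and Swinnerton-Dyer and the Riemann hypothesis hold for `E/K`.

The proof is in `Pool.Agent.Q5.MS`, based on `Pool.Agent.TH270.MS` (helper270) and `Pool.Agent.TH942.ES`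
(helper942). For `K = ℚ` this is in `MeanSquareLaw` of problem `MP_3283e1_nt`.
-/

set_option autoImplicit false

namespace Pool.Agent.Results.MP_1a91b9_nt.MeanSquareLeading

open Filter Topology Set Complex NumberField IsDedekindDomain MeasureTheory
open Pool.Agent.Results.MP_ae0bd0_nt.MeanProduct (Good norm points trace factor upTo product powerSum
  productStar Tempered)

variable {K : Type} [Field K] [NumberField K]

/-- `ρ` is an integer `m`, `F(s)/(s - 1)^m → A` for `s → 1`, and `F` has no zeros with `Re s > 1`. -/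
def LeadingRH (F : ℂ → ℂ) (ρ A : ℝ) : Prop :=
  (∃ m : ℤ, ρ = m ∧ Tendsto (fun s => F s / (s - 1) ^ m) (𝓝[≠] 1) (𝓝 (A : ℂ))) ∧
    ∀ s : ℂ, 1 < s.re → F s ≠ 0

/-- `log (A P*(y) / (e^γ log y)^ρ)`. -/
noncomputable def devStar (a b : 𝓞 K) (ρ A y : ℝ) : ℝ :=
  Real.log (A * productStar a b y / (Real.exp Real.eulerMascheroniConstant * Real.log y) ^ ρ)

/-- `log (A e^c P(y) / (e^γ log y)^ρ)`. -/
noncomputable def dev (a b : 𝓞 K) (ρ A c y : ℝ) : ℝ :=
  Real.log (A * Real.exp c * product a b y /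
    (Real.exp Real.eulerMascheroniConstant * Real.log y) ^ ρ)

/-- `∑_{√y < Nv ≤ y} (a_v² - 2 Nv)/(2 Nv²)`. -/
noncomputable def squares (a b : 𝓞 K) (y : ℝ) : ℝ :=
  ∑ᶠ (v : {v : HeightOneSpectrum (𝓞 K) // Good a b v}) (_ : √y < norm v.1 ∧ (norm v.1 : ℝ) ≤ y),
    ((trace a b v.1 : ℝ) ^ 2 - 2 * norm v.1) / (2 * (norm v.1 : ℝ) ^ 2)

/-! ### translation -/

open Pool.Agent.Results.MP_ae0bd0_nt.MeanProduct (NN data log_product cP_eq dev_eq zeros_shift)
open Pool.Agent.TH942.ES (GoodV alV curve_sys cP)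
open Pool.Agent.TH270.MS (Pl Mc DvR Dv fin_log_meas dv_meas)
open Pool.Agent.Q5.MS (Pv Sq)

theorem squares_eq (a b : 𝓞 K) : squares a b = Sq (NN a b) (alV a b) := by
  funext y
  unfold squares Sq
  refine finsum_congr fun v => finsum_congr fun _ => ?_
  have h1 := cP_eq a b (v, 1)
  simp only [powerSum] at h1
  refine Eq.trans ?_ h1.symm
  push_cast
  congr 1
  · ring
  · norm_num

theorem lim_shift (F : ℂ → ℂ) (m : ℤ) (A : ℂ) :
    Tendsto (fun s => F (1 + s) / s ^ m) (𝓝[≠] 0) (𝓝 A) ↔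
      Tendsto (fun s => F s / (s - 1) ^ m) (𝓝[≠] 1) (𝓝 A) := by
  have h1 : Tendsto (fun s : ℂ => 1 + s) (𝓝[≠] 0) (𝓝[≠] 1) := by
    refine tendsto_nhdsWithin_iff.2 ⟨?_, ?_⟩
    · have h1 : Tendsto (fun s : ℂ => 1 + s) (𝓝 0) (𝓝 (1 + 0)) :=
        (continuous_const.add continuous_id).tendsto _
      rw [add_zero] at h1
      exact h1.mono_left nhdsWithin_le_nhds
    · filter_upwards [self_mem_nhdsWithin] with s hs
      have hs0 : s ≠ 0 := hs
      show 1 + s ≠ 1
      simpa using hs0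
  have h2 : Tendsto (fun s : ℂ => s - 1) (𝓝[≠] 1) (𝓝[≠] 0) := by
    refine tendsto_nhdsWithin_iff.2 ⟨?_, ?_⟩
    · have h1 : Tendsto (fun s : ℂ => s - 1) (𝓝 1) (𝓝 (1 - 1)) :=
        (continuous_id.sub continuous_const).tendsto _
      rw [sub_self] at h1
      exact h1.mono_left nhdsWithin_le_nhds
    · filter_upwards [self_mem_nhdsWithin] with s hs
      have hs0 : s ≠ 1 := hs
      show s - 1 ≠ 0
      exact sub_ne_zero.2 hs0
  constructor
  · intro h
    refine (h.comp h2).congr fun s => ?_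
    simp only [Function.comp_apply, add_sub_cancel]
  · intro h
    refine (h.comp h1).congr fun s => ?_
    simp only [Function.comp_apply, add_sub_cancel_left]

/-- **The leading coefficient from sharp products over the primes, in mean square.** -/
theorem result (a b : 𝓞 K) (_hΔ : 4 * a ^ 3 + 27 * b ^ 2 ≠ 0) (F : ℂ → ℂ) (hF : Tempered a b F)
    (ρ A : ℝ) (hA : 0 < A) :
    List.TFAE [
      LeadingRH F ρ A,
      IntegrableOn (fun y : ℝ => devStar a b ρ A y ^ 2 / y) (Ioi (Real.exp 1)),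
      Tendsto (fun Y : ℝ => (∫ y in Real.exp 1..Y, |devStar a b ρ A y| / y) / Real.log Y) atTop
        (𝓝 0)] ∧
    (∀ c : ℝ, Tendsto (squares a b) atTop (𝓝 c) → (LeadingRH F ρ A ↔
      Tendsto (fun Y : ℝ => (∫ y in Real.exp 1..Y, |dev a b ρ A c y| / y) / Real.log Y) atTop
        (𝓝 0))) ∧
    (LeadingRH F ρ A → ∀ ε : ℝ, 0 < ε →
      ∫⁻ y in {y : ℝ | Real.exp 1 < y ∧ ε < |devStar a b ρ A y|}, ENNReal.ofReal (1 / y) < ⊤) := by
  obtain ⟨G₀, k, κ, η, C, H⟩ := data hF
  have t := Pool.Agent.Q5.MS.lead_real H ρ hA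
  have h1 : LeadingRH F ρ A ↔ ((∀ s : ℂ, 0 < s.re → F (1 + s) ≠ 0) ∧
      ∃ m : ℤ, ρ = m ∧ Tendsto (fun s => F (1 + s) / s ^ m) (𝓝[≠] 0) (𝓝 (A : ℂ))) := by
    rw [zeros_shift]
    simp only [lim_shift]
    exact and_comm
  have h2 : ∀ y : ℝ, Real.exp 1 ≤ y → devStar a b ρ A y = -DvR (NN a b) (alV a b) ρ A y :=
    fun y hy => dev_eq a b hA hy
  have h3 : IntegrableOn (fun y : ℝ => devStar a b ρ A y ^ 2 / y) (Ioi (Real.exp 1)) ↔
      IntegrableOn (fun Y : ℝ => DvR (NN a b) (alV a b) ρ A Y ^ 2 / Y) (Ioi (Real.exp 1)) := by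
    refine integrableOn_congr_fun (fun y hy => ?_) measurableSet_Ioi
    rw [h2 y (le_of_lt hy), neg_sq]
  have h4 : LeadingRH F ρ A ↔
      IntegrableOn (fun y : ℝ => devStar a b ρ A y ^ 2 / y) (Ioi (Real.exp 1)) := by
    rw [h1, h3]
    exact t.out 0 1
  refine ⟨?_, fun c hc => ?_, fun h ε hε => ?_⟩
  · tfae_have 1 ↔ 2 := h4
    tfae_have 1 ↔ 3 := by
      have h5 : (fun Y : ℝ => (∫ y in Real.exp 1..Y, |devStar a b ρ A y| / y) / Real.log Y)
          =ᶠ[atTop] fun Y : ℝ => (∫ y in Real.exp 1..Y, |DvR (NN a b) (alV a b) ρ A y| / y) /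
            Real.log Y := by
        filter_upwards [eventually_ge_atTop (Real.exp 1)] with Y hY
        congr 1
        refine intervalIntegral.integral_congr fun y hy => ?_
        rw [uIcc_of_le hY] at hy
        rw [h2 y hy.1, abs_neg]
      rw [h1, tendsto_congr' h5]
      exact t.out 0 2
    tfae_finish
  · rw [h1, Pool.Agent.Q5.MS.lead_prime H ρ hA (c := c) (by rw [← squares_eq]; exact hc)]
    refine tendsto_congr' ?_
    filter_upwards [eventually_ge_atTop (Real.exp 1)] with Y hY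
    congr 1
    refine intervalIntegral.integral_congr fun y hy => ?_
    rw [uIcc_of_le hY] at hy
    congr 2
    have hl : 0 < Real.log y := by linarith [Pool.Agent.TH270.MS.one_le_log hy.1]
    have h6 : 0 < Real.exp Real.eulerMascheroniConstant * Real.log y :=
      mul_pos (Real.exp_pos _) hl
    have h7 := Real.rpow_pos_of_pos h6 ρ
    have h8 : 0 < product a b y := by
      unfold product
      refine finprod_mem_induction (fun x : ℝ => 0 < x) one_pos (fun x y hx hy => mul_pos hx hy) ?_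
      intro v _
      have h9 : (2 : ℝ) ≤ norm v := by exact_mod_cast Pool.Agent.H921R2.TatePole.two_le_nm v
      positivity
    unfold dev
    rw [Real.log_div (by positivity) h7.ne', Real.log_mul (by positivity) h8.ne',
      Real.log_mul hA.ne' (Real.exp_pos c).ne', Real.log_exp, log_product, Real.log_rpow h6,
      Real.log_mul (Real.exp_pos _).ne' hl.ne', Real.log_exp]
    ring
  · have h5 := h4.1 h
    obtain ⟨⟨m, hm, -⟩, -⟩ := h
    have hset : {y : ℝ | Real.exp 1 < y ∧ ε < |devStar a b ρ A y|} =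
        {Y : ℝ | Real.exp 1 < Y ∧ ε < |Dv (NN a b) (alV a b) m A Y|} := by
      ext y
      refine and_congr_right fun hy => ?_
      rw [h2 y (le_of_lt hy), abs_neg, hm]
      rfl
    refine fin_log_meas h5 hε ?_
    rw [hset]
    exact dv_meas H m A ε

end Pool.Agent.Results.MP_1a91b9_nt.MeanSquareLeading
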