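import Pool.Agent.H125b.BW.Sysb
import Pool.Agent.Results.MP_1a91b9_nt.MeanSquareLeading

/-!
# Brackets for the leading coefficient by the product of Birch and Swinnerton-Dyer over number fields, in every window

Let `K` be a number field, `E : y² = x³ + a x + b` an elliptic curve with `a, b ∈ 𝓞_K`, and let `F` be a
continuation of the `L`-series of `E/K` (product over the primes `v ∤ 6Δ`), MEROMORPHIC at every point with `Re s > 1` and
at `s = 1`; nothing else is assumed of `F`: no growth condition, no functional equation, no continuation beyond the line
`Re s = 1`. Let `m` be the order and `c` the leading coefficient of `F` at `1`, let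

`P(x) = ∏_{Nv ≤ x} #E(k_v)/Nv`,  `P*(x) = exp (- ∑_{Nv^k ≤ x} (α_v^k + β_v^k)/(k Nv^k))`

be the original product of Birch and Swinnerton-Dyer and the product with the prime powers, both with the SHARP
cut-off, and `T = e^{mγ}/|c|`. Let `0 < δ < 1`. Then:

* UPPER BRACKET. If `F` has no real poles `> 1`: every window `[Y^(1-δ), Y]` with `Y` large contains an `x` with
  `P*(x) > (T - ε) (log x)^m`.
* LOWER BRACKET. If `F` has no real zeros `> 1`: every window `[Y^(1-δ), Y]` with `Y` large contains an `x` with
  `P*(x) < (T + ε) (log x)^m`.
* If `F` has no real poles `> 1` and `P*(x) ≤ C (log x)^κ` for the `x` in the windows `[Y^(1-δ), Y]` of one unbounded set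
  of values of `Y`, then `F` has no zeros and no poles with `Re s > 1` (the Riemann hypothesis for `E/K`), `m ≤ κ`,
  and `|c| ≥ e^{mγ}/C` if `κ = m`.
* If `F` has no real zeros `> 1` and `P*(x) ≥ C (log x)^κ`, `C > 0`, for the `x` in such windows, then `F` has no zeros and
  no poles with `Re s > 1`, `κ ≤ m`, and `|c| ≤ e^{mγ}/C` if `κ = m`.
* TWO-SIDED. Without any hypothesis on the real zeros and poles: if `P*(x) ≤ C (log x)^κ` for the `x` in the windows of
  one unbounded set of `Y`, and `P*(x) ≥ C' (log x)^κ'`, `C' > 0`, for the `x` in the windows of another one, then `F` has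
  no zeros and no poles with `Re s > 1`, `κ' ≤ m ≤ κ`, `T ≤ C` if `κ = m`, and `C' ≤ T` if `κ' = m`.
* The same for the original product `P` with `T e^{-c₀}` in place of `T`, if
  `∑_{√x < Nv ≤ x} (a_v² - 2 Nv)/(2 Nv²) → c₀` (by Rankin and Selberg this is known for automorphic `E/K`, with
  `c₀ = -(log 2)/2` without complex multiplication over `K`). The statements on the zeros, the poles and on `m` hold for
  `P` without this hypothesis.

So without any hypothesis on the complex zeros the products of Birch and Swinnerton-Dyer return to the asymptotic value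
`T (log x)^m` predicted by Goldfeld's theorem in every long window, from above and from below; and a ONE-SIDED bound for
the products in one sequence of windows bounds the leading coefficient of the `L`-function from one side, and implies the
Riemann hypothesis for `E/K`. The asymptotic formula itself is equivalent to a statement deeper than the Riemann
hypothesis (Kuo, Murty, Conrad). The conjecture of Birch and Swinnerton-Dyer says that `m` is the rank of `E(K)` and
predicts `|c|` (here without the Euler factors at `v ∣ 6Δ`).

The upper half without the leading coefficient is in `OneSequenceOfWindows` of problem `MP_cd906c_nt` (helper18), whose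
method (`Pool.Agent.Q18.W`: Taylor coefficients of high order of the logarithm of `F`) is used here for `F` and for
`1/F`. New are the leading coefficient, the lower half, and the statements for every window.
-/

set_option autoImplicit false

namespace Pool.Agent.Results.MP_1a91b9_nt.BracketsOverFields

open Filter Topology Set Complex NumberField IsDedekindDomain
open Pool.Agent.Results.MP_ae0bd0_nt.MeanProduct (Good norm points trace factor upTo product powerSum
  productStar)
open Pool.Agent.Results.MP_1a91b9_nt.MeanSquareLeading (squares)
open Pool.Agent.H125b.BW (Free NoRealPoles NoRealZeros IsLeading Windows Brackets OrderBrackets)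

variable {K : Type} [Field K] [NumberField K]

/-- `F` is a continuation of the `L`-series `∏_v factor v` (`Re s > 3/2`), meromorphic at every point with
`Re s > 1` and at `1`. -/
def Continues (a b : 𝓞 K) (F : ℂ → ℂ) : Prop :=
  (∀ s : ℂ, 1 < s.re → MeromorphicAt F s) ∧ MeromorphicAt F 1 ∧
  ∀ s : ℂ, (3 : ℝ) / 2 < s.re →
    HasProd (fun v : {v : HeightOneSpectrum (𝓞 K) // Good a b v} => factor a b v.1 s) (F s)

/-! ### translation -/

open Pool.Agent.Results.MP_ae0bd0_nt.MeanProduct (NN factor_eq real_sums log_star star_pos log_product)
open Pool.Agent.Results.MP_1a91b9_nt.MeanSquareLeading (squares_eq)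
open Pool.Agent.TH942.ES (alV curve_sys zv xv)
open Pool.Agent.Q18.W (Dw)

theorem data {a b : 𝓞 K} {F : ℂ → ℂ} (hF : Continues a b F) :
    Dw (NN a b) (alV a b) (fun s => F (((1 : ℝ) : ℂ) + s)) := by
  obtain ⟨h1, h2, h3⟩ := hF
  refine Pool.Agent.Q18.W.dw_of (curve_sys a b) (real_sums a b) h1 (by rw [Complex.ofReal_one]; exact h2)
    fun s hs => ?_
  refine (h3 s (by linarith)).congr_fun fun v => ?_
  rw [Complex.ofReal_one]
  exact (factor_eq a b v s).symm

theorem product_pos (a b : 𝓞 K) (y : ℝ) : 0 < product a b y := by
  unfold product
  refine finprod_mem_induction (fun x : ℝ => 0 < x) one_pos (fun x y hx hy => mul_pos hx hy) ?_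
  intro v _
  have h9 : (2 : ℝ) ≤ norm v := by exact_mod_cast Pool.Agent.H921R2.TatePole.two_le_nm v
  positivity

/-- **Brackets for the leading coefficient by the product of Birch and Swinnerton-Dyer over number fields.** -/
theorem result (K : Type) [Field K] [NumberField K] (a b : 𝓞 K) (_hΔ : 4 * a ^ 3 + 27 * b ^ 2 ≠ 0)
    (F : ℂ → ℂ) (hF : Continues a b F) (m : ℤ) (c : ℂ) (hc : IsLeading F m c) :
    Brackets F (productStar a b) m (Real.exp (m * Real.eulerMascheroniConstant) / ‖c‖) ∧
    (∀ c₀ : ℝ, Tendsto (squares a b) atTop (𝓝 c₀) →
      Brackets F (product a b) m (Real.exp (m * Real.eulerMascheroniConstant - c₀) / ‖c‖)) ∧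
    OrderBrackets F (product a b) m := by
  have H := data hF
  refine ⟨Pool.Agent.H125b.BW.sys_star H hc (star_pos a b) (log_star a b), fun c₀ hs => ?_,
    Pool.Agent.H125b.BW.sys_order H hc (product_pos a b) (log_product a b)⟩
  exact Pool.Agent.H125b.BW.sys_prime H hc (product_pos a b) (log_product a b)
    (by rw [← squares_eq]; exact hs)

end Pool.Agent.Results.MP_1a91b9_nt.BracketsOverFields
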