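import Pool.Agent.TH942.ES.NF
import Pool.Agent.TH942.ES.StarExt

/-!
# The leading term and the analytic continuation from finite products over primes

Let `K` be a number field, `E : y² = x³ + a x + b` an elliptic curve with `a, b ∈ 𝓞_K`, and
`L(s) = ∏_v (1 - a_v Nv^(-s) + Nv^(1-2s))⁻¹` (`Re s > 3/2`) its `L`-series, the product over the primes `v ∤ 6Δ`;
`α_v`, `β_v` are the roots of `X² - a_v X + Nv`.  (The finitely many Euler factors left out have neither zeros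
nor poles for `Re s ≥ 1`.)  For `K ≠ ℚ` it is in general not known that `L` can be continued to any point
of the line `Re s = 1`; the conjecture of Birch and Swinnerton-Dyer for `E` contains the existence of
the continuation to `s = 1`, and says that `L(s)/(s-1)^r` tends to an explicit number `A > 0`, where `r` is the rank.

For `ρ > 1` let `w_ρ(u) = (2πi)⁻¹ ∫_{Re z = 1} exp (z - u z^(1/ρ)) dz/z` (for `ρ → 1` the sharp cut-off at
`u = 1`) and, for `ρ' > ρ`,

`D(Y) = exp (- ∑_{Nv^k ≤ exp ((log Y)^ρ')} w_ρ(k log Nv / log Y) (α_v^k + β_v^k) / (k Nv^k))`,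

a FINITE product: the product of the local densities `#E(k_v)/Nv = (1 - α_v/Nv)(1 - β_v/Nv)` with a smooth
cut-off at `Nv ≈ Y`.  Let `γ` be Euler's constant.  Then for all `r ≥ 0`, `A > 0` and `ρ₀ ≥ 1` the following are
equivalent (nothing is assumed on `L`).

* `D(Y) ∼ (e^{rγ/ρ} / A) (log Y)^r` for all `ρ' > ρ > ρ₀`.
* `L` has an analytic continuation without zeros to the sector `|arg (s - 1)| < π/(2ρ₀)` (for `ρ₀ = 1`: the
  half plane `Re s > 1`), and `L(s)/(s - 1)^r → A` for `s → 1` in every smaller sector.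

If `L` is continued to `Re s > 1`, meromorphically at `s = 1`, they are also equivalent to: `L` has order `r`
and leading coefficient `A` at `s = 1` and has no zeros in the sector.

Goldfeld (1982) showed for `K = ℚ` that the law with the sharp cut-off implies the second statement with `ρ₀ = 1`;
there the converse is open (it is equivalent to more than the Riemann hypothesis).  Here one has an
equivalence, and it includes the existence of the continuation.

The proof is in `Pool.Agent.TH942.ES` and `Pool.Agent.TH942.SL`.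
-/

set_option autoImplicit false

namespace Pool.Agent.Results.MP_1a91b9_nt.LeadingTermLaw

open Filter Topology Set Complex NumberField IsDedekindDomain

variable {K : Type} [Field K] [NumberField K]

/-- The prime `v` does not divide `6 (4 a³ + 27 b²)`. -/
def Good (a b : 𝓞 K) (v : HeightOneSpectrum (𝓞 K)) : Prop :=
  6 * (4 * a ^ 3 + 27 * b ^ 2) ∉ v.asIdeal

/-- `Nv` -/
noncomputable def norm (v : HeightOneSpectrum (𝓞 K)) : ℕ := Ideal.absNorm v.asIdeal

/-- The number of affine points of `y² = x³ + a x + b` modulo `v`. -/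
noncomputable def points (a b : 𝓞 K) (v : HeightOneSpectrum (𝓞 K)) : ℕ :=
  Nat.card {P : (𝓞 K ⧸ v.asIdeal) × (𝓞 K ⧸ v.asIdeal) //
    P.2 ^ 2 = P.1 ^ 3 + Ideal.Quotient.mk v.asIdeal a * P.1 + Ideal.Quotient.mk v.asIdeal b}

/-- `a_v = Nv + 1 - #E(k_v)` -/
noncomputable def trace (a b : 𝓞 K) (v : HeightOneSpectrum (𝓞 K)) : ℤ := (norm v : ℤ) - points a b v

/-- The Euler factor `(1 - a_v Nv^(-s) + Nv^(1-2s))⁻¹`. -/
noncomputable def factor (a b : 𝓞 K) (v : HeightOneSpectrum (𝓞 K)) (s : ℂ) : ℂ :=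
  (1 - (trace a b v : ℂ) * (norm v : ℂ) ^ (-s) + (norm v : ℂ) ^ (1 - 2 * s))⁻¹

/-- The `L`-series of `E/K` (for `Re s > 3/2`), the product over the primes `v ∤ 6Δ`. -/
noncomputable def Lfun (a b : 𝓞 K) (s : ℂ) : ℂ :=
  ∏' v : {v : HeightOneSpectrum (𝓞 K) // Good a b v}, factor a b v.1 s

/-- `α^n + β^n` for the roots `α`, `β` of `X² - t X + q`. -/
def powerSum (t q : ℤ) : ℕ → ℤ
  | 0 => 2
  | 1 => t
  | n + 2 => t * powerSum t q (n + 1) - q * powerSum t q n

/-- The weight `w_ρ(u) = (2π)⁻¹ ∫ Re (exp (z - u z^(1/ρ)) / z) dt`, `z = 1 + it`. -/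
noncomputable def weight (ρ u : ℝ) : ℝ :=
  (2 * Real.pi)⁻¹ * ∫ t : ℝ, (exp ((1 + t * I) - u * (1 + t * I) ^ ((ρ⁻¹ : ℝ) : ℂ)) / (1 + t * I)).re

/-- `- log D(Y)`, the sum of `w_ρ(k log Nv / log Y) (α_v^k + β_v^k) / (k Nv^k)` over the pairs `(v, k)`, `v ∤ 6Δ`,
`k = p.2 + 1 ≥ 1`, with `Nv^k ≤ exp ((log Y)^ρ')`; this is a finite sum. -/
noncomputable def logSum (a b : 𝓞 K) (ρ ρ' Y : ℝ) : ℝ :=
  ∑ᶠ (p : {v : HeightOneSpectrum (𝓞 K) // Good a b v} × ℕ)
    (_ : (norm p.1.1 : ℝ) ^ (p.2 + 1) ≤ Real.exp (Real.log Y ^ ρ')),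
    weight ρ (((p.2 : ℝ) + 1) * Real.log (norm p.1.1) / Real.log Y) *
      ((powerSum (trace a b p.1.1) (norm p.1.1) (p.2 + 1) : ℝ) /
        (((p.2 : ℝ) + 1) * (norm p.1.1 : ℝ) ^ (p.2 + 1)))

/-- The smoothed product of the local densities. -/
noncomputable def density (a b : 𝓞 K) (ρ ρ' Y : ℝ) : ℝ := Real.exp (-logSum a b ρ ρ' Y)

/-- The open sector `|arg (s - 1)| < π/(2ρ)` with vertex `1` (for `ρ = 1` the half plane `Re s > 1`). -/
def Sector (ρ : ℝ) : Set ℂ := {s | s ≠ 1 ∧ |arg (s - 1)| < Real.pi / (2 * ρ)}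

/-- The asymptotic formula `D(Y) ∼ (e^{rγ/ρ} / A) (log Y)^r`. -/
def Law (a b : 𝓞 K) (ρ ρ' : ℝ) (r : ℕ) (A : ℝ) : Prop :=
  Tendsto (fun Y : ℝ => density a b ρ ρ' Y / Real.log Y ^ r) atTop
    (𝓝 (Real.exp (r * Real.eulerMascheroniConstant / ρ) / A))

/-- `F` is an analytic continuation of the `L`-series to the sector, without zeros, and
`F(s) / (s - 1)^r → A` for `s → 1` in every smaller sector. -/
def SectorialLeadingTerm (a b : 𝓞 K) (ρ₀ : ℝ) (r : ℕ) (A : ℝ) (F : ℂ → ℂ) : Prop :=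
  (∀ s : ℂ, s ∈ Sector ρ₀ ∨ 3 / 2 < s.re → DifferentiableAt ℂ F s ∧ F s ≠ 0) ∧
  (∀ s : ℂ, 3 / 2 < s.re → F s = Lfun a b s) ∧
  ∀ ρ : ℝ, ρ₀ < ρ → Tendsto (fun s => F s / (s - 1) ^ r) (𝓝[Sector ρ] 1) (𝓝 (A : ℂ))

/-- `F` is an analytic continuation of the `L`-series to the half plane `Re s > 1`, meromorphic at the point
`s = 1`. -/
def Continues (a b : 𝓞 K) (F : ℂ → ℂ) : Prop :=
  (∀ s : ℂ, 1 < s.re → DifferentiableAt ℂ F s) ∧ MeromorphicAt F 1 ∧
    ∀ s : ℂ, 3 / 2 < s.re → F s = Lfun a b s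

/-! ### translation -/

open Pool.Agent.TH942.ES (GoodV alV StE curve_sys curve_factor zv xv cP efV rt trV rt_prod trV_abs)
open Pool.Agent.H921R2.TatePole (nm two_le_nm)

/-- the norms -/
noncomputable abbrev NN (a b : 𝓞 K) : {v : HeightOneSpectrum (𝓞 K) // GoodV a b v} → ℕ :=
  fun v => nm v.1

theorem factor_eq (a b : 𝓞 K) (v : {v : HeightOneSpectrum (𝓞 K) // GoodV a b v}) (s : ℂ) :
    factor a b v.1 s = ∏ i, (1 - zv (NN a b) (alV a b) v i * xv (NN a b) v (s - 1))⁻¹ := by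
  have h := curve_factor (a := a) (b := b) v (s - 1)
  rw [add_sub_cancel] at h
  refine Eq.trans ?_ h.symm
  unfold factor efV trace
  push_cast
  rfl

theorem lfun_eq (a b : 𝓞 K) (s : ℂ) :
    Lfun a b s = Pool.Agent.TH942.ES.LE (NN a b) (alV a b) (s - 1) := by
  unfold Lfun Pool.Agent.TH942.ES.LE
  exact tprod_congr fun v => factor_eq a b v s

theorem hasProd (a b : 𝓞 K) {s : ℂ} (hs : 3 / 2 < s.re) :
    HasProd (fun v : {v : HeightOneSpectrum (𝓞 K) // Good a b v} => factor a b v.1 s)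
      (Lfun a b s) := by
  have h1 := (curve_sys a b).hasProd (s := s - 1) (by
    rw [Complex.sub_re, Complex.one_re]; linarith)
  have h2 : (fun v : {v : HeightOneSpectrum (𝓞 K) // Good a b v} => factor a b v.1 s) =
      fun v => ∏ i, (1 - zv (NN a b) (alV a b) v i * xv (NN a b) v (s - 1))⁻¹ :=
    funext fun v => factor_eq a b v s
  unfold Lfun
  rw [h2]
  exact h1.multipliable.hasProd

/-- the power sums of the local roots -/
theorem zv_sum (a b : 𝓞 K) (v : {v : HeightOneSpectrum (𝓞 K) // GoodV a b v}) (n : ℕ) :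
    ∑ i, zv (NN a b) (alV a b) v i ^ n =
      (((powerSum (trace a b v.1) (norm v.1) n : ℝ) / (norm v.1 : ℝ) ^ n : ℝ) : ℂ) := by
  have hp2 : (2 : ℝ) ≤ nm v.1 := by exact_mod_cast two_le_nm v.1
  have hq0 : (0 : ℝ) < nm v.1 := by linarith
  have hs : 0 < √(nm v.1 : ℝ) := Real.sqrt_pos.2 hq0
  have hs2 : √(nm v.1 : ℝ) ^ 2 = nm v.1 := Real.sq_sqrt hq0.le
  have hsc : ((√(nm v.1 : ℝ) : ℝ) : ℂ) ≠ 0 := by exact_mod_cast hs.ne'
  have hqc : (nm v.1 : ℂ) ≠ 0 := by exact_mod_cast hq0.ne'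
  have hs2c : ((√(nm v.1 : ℝ) : ℝ) : ℂ) ^ 2 = nm v.1 := by exact_mod_cast congrArg (fun x : ℝ => (x : ℂ)) hs2
  set z₀ : ℂ := zv (NN a b) (alV a b) v 0 with hz0
  set z₁ : ℂ := zv (NN a b) (alV a b) v 1 with hz1
  have e0 : z₀ = rt (trV a b v.1) 0 / ((√(nm v.1 : ℝ) : ℝ) : ℂ) := rfl
  have e1 : z₁ = rt (trV a b v.1) 1 / ((√(nm v.1 : ℝ) : ℝ) : ℂ) := rfl
  -- the sum and the product of the roots
  have hprod1 := rt_prod (trV_abs v.2) 1
  have hprod2 := rt_prod (trV_abs v.2) (-1)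
  have hP : rt (trV a b v.1) 0 * rt (trV a b v.1) 1 = 1 := by
    linear_combination (1 / 2 : ℂ) * hprod1 + (1 / 2 : ℂ) * hprod2
  have hS : rt (trV a b v.1) 0 + rt (trV a b v.1) 1 = 2 * trV a b v.1 := by
    linear_combination (-1 / 2 : ℂ) * hprod1 + (1 / 2 : ℂ) * hprod2
  have hsum : z₀ + z₁ = (trace a b v.1 : ℂ) / nm v.1 := by
    rw [e0, e1, ← add_div, hS]
    unfold trV trace
    have e3 : (norm v.1 : ℤ) = (nm v.1 : ℤ) := rfl
    have e4 : points a b v.1 = Pool.Agent.TH942.ES.ptsV a b v.1 := rfl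
    rw [e3, e4, ← hs2c]
    push_cast
    rw [hs2c]
    field_simp
    rw [hs2c]
    ring
  have hmul : z₀ * z₁ = 1 / (nm v.1 : ℂ) := by
    rw [e0, e1, div_mul_div_comm, hP, ← hs2c]
    ring
  have key : ∀ n : ℕ, z₀ ^ n + z₁ ^ n =
      (powerSum (trace a b v.1) (norm v.1) n : ℂ) / (nm v.1 : ℂ) ^ n := by
    intro n
    induction n using Nat.twoStepInduction with
    | zero =>
      simp only [pow_zero, powerSum]
      norm_num
    | one =>
      simp only [pow_one, powerSum]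
      exact hsum
    | more n ih1 ih2 =>
      have h1 : z₀ ^ (n + 2) + z₁ ^ (n + 2) = (z₀ + z₁) * (z₀ ^ (n + 1) + z₁ ^ (n + 1)) -
          z₀ * z₁ * (z₀ ^ n + z₁ ^ n) := by ring
      rw [h1, ih1, ih2, hsum, hmul]
      have e3 : (((norm v.1 : ℕ) : ℤ) : ℂ) = (nm v.1 : ℂ) := by
        rw [Int.cast_natCast]
        rfl
      simp only [powerSum]
      push_cast
      have e5 : ((norm v.1 : ℕ) : ℂ) = (nm v.1 : ℂ) := rfl
      rw [e5]
      field_simp
      ring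
  have h2 := key n
  rw [Fin.sum_univ_two]
  refine h2.trans ?_
  push_cast
  rfl

theorem real_sums (a b : 𝓞 K) (v : {v : HeightOneSpectrum (𝓞 K) // GoodV a b v}) (k : ℕ) :
    (∑ i, zv (NN a b) (alV a b) v i ^ k).im = 0 := by
  rw [zv_sum, Complex.ofReal_im]

theorem cP_eq (a b : 𝓞 K) (p : {v : HeightOneSpectrum (𝓞 K) // GoodV a b v} × ℕ) :
    cP (NN a b) (alV a b) p = (powerSum (trace a b p.1.1) (norm p.1.1) (p.2 + 1) : ℝ) /
        (((p.2 : ℝ) + 1) * (norm p.1.1 : ℝ) ^ (p.2 + 1)) := by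
  unfold cP
  rw [zv_sum, Complex.ofReal_re]
  rw [div_div, mul_comm]

theorem logSum_eq (a b : 𝓞 K) (ρ ρ' Y : ℝ) :
    logSum a b ρ ρ' Y = StE (NN a b) (alV a b) ρ ρ' Y := by
  unfold logSum StE
  refine finsum_congr fun p => finsum_congr fun _ => ?_
  exact congrArg (fun x : ℝ => weight ρ (((p.2 : ℝ) + 1) * Real.log (norm p.1.1) / Real.log Y) * x)
    (cP_eq a b p).symm

theorem sector_iff (ρ : ℝ) (s : ℂ) : 1 + s ∈ Sector ρ ↔ s ∈ Pool.Agent.TH942.SL.Sect ρ := by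
  unfold Sector Pool.Agent.TH942.SL.Sect
  simp only [Set.mem_ofPred_eq, add_sub_cancel_left, ne_eq, add_eq_left]

theorem sector_iff' (ρ : ℝ) (s : ℂ) : s ∈ Sector ρ ↔ s - 1 ∈ Pool.Agent.TH942.SL.Sect ρ := by
  rw [← sector_iff, add_sub_cancel]

theorem tendsto_up (ρ : ℝ) : Tendsto (fun s : ℂ => 1 + s) (𝓝[Pool.Agent.TH942.SL.Sect ρ] 0)
    (𝓝[Sector ρ] 1) := by
  refine tendsto_nhdsWithin_iff.2 ⟨?_, ?_⟩
  · have h1 : Tendsto (fun s : ℂ => 1 + s) (𝓝 0) (𝓝 (1 + 0)) :=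
      (continuous_const.add continuous_id).tendsto _
    rw [add_zero] at h1
    exact h1.mono_left nhdsWithin_le_nhds
  · filter_upwards [self_mem_nhdsWithin] with s hs
    exact (sector_iff ρ s).2 hs

theorem tendsto_down (ρ : ℝ) : Tendsto (fun s : ℂ => s - 1) (𝓝[Sector ρ] 1)
    (𝓝[Pool.Agent.TH942.SL.Sect ρ] 0) := by
  refine tendsto_nhdsWithin_iff.2 ⟨?_, ?_⟩
  · have h1 : Tendsto (fun s : ℂ => s - 1) (𝓝 1) (𝓝 (1 - 1)) :=
      (continuous_id.sub continuous_const).tendsto _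
    rw [sub_self] at h1
    exact h1.mono_left nhdsWithin_le_nhds
  · filter_upwards [self_mem_nhdsWithin] with s hs
    exact (sector_iff' ρ s).1 hs

/-- the two forms of the law -/
theorem law_iff {a b : 𝓞 K} {ρ ρ' A : ℝ} {r : ℕ} (hA : 0 < A) : Law a b ρ ρ' r A ↔
    Tendsto (fun Y : ℝ => StE (NN a b) (alV a b) ρ ρ' Y + r * Real.log (Real.log Y)) atTop
      (𝓝 (Real.log A - r * Real.eulerMascheroniConstant / ρ)) := by
  unfold Law
  have hpos : ∀ᶠ Y : ℝ in atTop, 0 < Real.log Y :=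
    Real.tendsto_log_atTop.eventually_gt_atTop 0
  constructor
  · intro h
    have h1 := h.log (by positivity)
    rw [Real.log_div (Real.exp_pos _).ne' hA.ne', Real.log_exp] at h1
    have h2 := h1.neg
    rw [neg_sub] at h2
    refine h2.congr' ?_
    filter_upwards [hpos] with Y hY
    rw [density, Real.log_div (Real.exp_pos _).ne' (by positivity), Real.log_exp, Real.log_pow,
      logSum_eq]
    ring
  · intro h
    have h1 := (Real.continuous_exp.tendsto _).comp h.neg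
    have e1 : Real.exp (-(Real.log A - r * Real.eulerMascheroniConstant / ρ)) =
        Real.exp (r * Real.eulerMascheroniConstant / ρ) / A := by
      rw [neg_sub, Real.exp_sub, Real.exp_log hA]
    rw [e1] at h1
    refine h1.congr' ?_
    filter_upwards [hpos] with Y hY
    simp only [Function.comp_apply]
    rw [density, logSum_eq, neg_add, Real.exp_add, div_eq_mul_inv]
    congr 1
    rw [Real.exp_neg, mul_comm, Real.exp_mul, Real.exp_log hY, Real.rpow_natCast]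

theorem lead_iff (a b : 𝓞 K) {ρ₀ : ℝ} (r : ℕ) {A : ℝ} :
    (∃ G : ℂ → ℂ, (∀ s : ℂ, s ∈ Pool.Agent.TH942.SL.Sect ρ₀ ∨ 1 / 2 < s.re →
        DifferentiableAt ℂ G s ∧ G s ≠ 0) ∧
      (∀ s : ℂ, 1 / 2 < s.re → G s = Pool.Agent.TH942.ES.LE (NN a b) (alV a b) s) ∧
      ∀ ρ : ℝ, ρ₀ < ρ →
        Tendsto (fun s => G s / s ^ r) (𝓝[Pool.Agent.TH942.SL.Sect ρ] 0) (𝓝 (A : ℂ))) ↔
    ∃ F : ℂ → ℂ, SectorialLeadingTerm a b ρ₀ r A F := by
  constructor
  · rintro ⟨G, h1, h2, h3⟩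
    refine ⟨fun s => G (s - 1), fun s hs => ?_, fun s hs => ?_, fun ρ hρ => ?_⟩
    · have h4 : s - 1 ∈ Pool.Agent.TH942.SL.Sect ρ₀ ∨ 1 / 2 < (s - 1).re := by
        rcases hs with hs | hs
        · exact Or.inl ((sector_iff' _ _).1 hs)
        · right
          rw [Complex.sub_re, Complex.one_re]
          linarith
      obtain ⟨h5, h6⟩ := h1 _ h4
      exact ⟨DifferentiableAt.comp s (f := fun s : ℂ => s - 1) h5 (by fun_prop), h6⟩
    · rw [lfun_eq]
      exact h2 _ (by rw [Complex.sub_re, Complex.one_re]; linarith)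
    · exact (h3 ρ hρ).comp (tendsto_down ρ)
  · rintro ⟨F, h1, h2, h3⟩
    refine ⟨fun s => F (1 + s), fun s hs => ?_, fun s hs => ?_, fun ρ hρ => ?_⟩
    · have h4 : 1 + s ∈ Sector ρ₀ ∨ 3 / 2 < (1 + s).re := by
        rcases hs with hs | hs
        · exact Or.inl ((sector_iff _ _).2 hs)
        · right
          rw [Complex.add_re, Complex.one_re]
          linarith
      obtain ⟨h5, h6⟩ := h1 _ h4
      exact ⟨DifferentiableAt.comp s (f := fun s : ℂ => 1 + s) h5 (by fun_prop), h6⟩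
    · show F (1 + s) = _
      rw [h2 _ (by rw [Complex.add_re, Complex.one_re]; linarith), lfun_eq, add_sub_cancel_left]
    · have h4 := (h3 ρ hρ).comp (tendsto_up ρ)
      refine h4.congr fun s => ?_
      simp only [Function.comp_apply, add_sub_cancel_left]

theorem sector_ne (ρ : ℝ) : 𝓝[Sector ρ] (1 : ℂ) ≤ 𝓝[≠] 1 :=
  nhdsWithin_mono _ fun _ hs => hs.1

/-- the positive reals are in the sector -/
theorem real_mem {ρ : ℝ} (hρ : 1 ≤ ρ) {x : ℝ} (hx : 0 < x) : (1 + x : ℂ) ∈ Sector ρ :=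
  (sector_iff ρ x).2 (Pool.Agent.TH942.ES.sect_real' hρ hx)

theorem tendsto_real {ρ : ℝ} (hρ : 1 ≤ ρ) :
    Tendsto (fun x : ℝ => (1 + x : ℂ)) (𝓝[>] 0) (𝓝[Sector ρ] 1) := by
  refine tendsto_nhdsWithin_iff.2 ⟨?_, ?_⟩
  · have h1 : Tendsto (fun x : ℝ => (1 + x : ℂ)) (𝓝 0) (𝓝 (1 + (0 : ℝ))) := by
      exact (continuous_const.add Complex.continuous_ofReal).tendsto _
    rw [Complex.ofReal_zero, add_zero] at h1
    exact h1.mono_left nhdsWithin_le_nhds
  · filter_upwards [self_mem_nhdsWithin] with x hx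
    exact real_mem hρ hx

/-- the exponent is determined -/
theorem zpow_eq_zero {n : ℤ} {c : ℝ} (hc : 0 < c)
    (h : Tendsto (fun x : ℝ => x ^ n) (𝓝[>] 0) (𝓝 c)) : n = 0 := by
  have h1 : Tendsto (fun T : ℝ => T ^ (-n)) atTop (𝓝 c) := by
    refine (h.comp tendsto_inv_atTop_nhdsGT_zero).congr fun T => ?_
    simp only [Function.comp_apply]
    rw [inv_zpow, zpow_neg]
  rcases lt_trichotomy (-n) 0 with h5 | h5 | h5
  · have h7 := tendsto_nhds_unique h1 (tendsto_zpow_atTop_zero h5)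
    exact absurd h7 hc.ne'
  · omega
  · exfalso
    have h6 : Tendsto (fun T : ℝ => T ^ (-n)) atTop atTop := by
      obtain ⟨k, hk⟩ := Int.eq_ofNat_of_zero_le h5.le
      rw [hk]
      simp only [zpow_natCast]
      refine tendsto_pow_atTop ?_
      intro h0
      rw [h0] at hk
      rw [hk] at h5
      exact absurd h5 (by simp)
    exact not_tendsto_nhds_of_tendsto_atTop h6 _ h1

/-- the limit in the sector determines the order and the leading coefficient -/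
theorem order_of_lim {F : ℂ → ℂ} (hF : MeromorphicAt F 1) {ρ : ℝ} (hρ : 1 ≤ ρ) {r : ℕ} {A : ℝ}
    (hA : 0 < A) (h : Tendsto (fun s => F s / (s - 1) ^ r) (𝓝[Sector ρ] 1) (𝓝 (A : ℂ))) :
    meromorphicOrderAt F 1 = ((r : ℤ) : WithTop ℤ) ∧ meromorphicTrailingCoeffAt F 1 = A := by
  have hr := tendsto_real hρ
  have hne := hr.mono_right (sector_ne ρ)
  have h1 := h.comp hr
  have hAc : (A : ℂ) ≠ 0 := by exact_mod_cast hA.ne'
  have htop : meromorphicOrderAt F 1 ≠ ⊤ := by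
    intro ht
    have h2 := hne.eventually (meromorphicOrderAt_eq_top_iff.1 ht)
    have h3 : Tendsto ((fun s => F s / (s - 1) ^ r) ∘ fun x : ℝ => (1 + x : ℂ)) (𝓝[>] 0)
        (𝓝 0) := by
      refine tendsto_const_nhds.congr' ?_
      filter_upwards [h2] with x hx
      simp only [Function.comp_apply]
      rw [hx, zero_div]
    exact hAc (tendsto_nhds_unique h1 h3)
  obtain ⟨m, hm⟩ := WithTop.ne_top_iff_exists.1 htop
  have h4 := hF.tendsto_nhds_meromorphicTrailingCoeffAt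
  rw [← hm, WithTop.untop₀_coe] at h4
  have hl : meromorphicTrailingCoeffAt F 1 ≠ 0 :=
    hF.meromorphicTrailingCoeffAt_ne_zero htop
  set l : ℂ := meromorphicTrailingCoeffAt F 1 with hldef
  have h4' : Tendsto (fun s : ℂ => (s - 1) ^ (-m) * F s) (𝓝[≠] 1) (𝓝 l) := h4
  have h5 := h4'.comp hne
  have h6 := (h1.div h5 hl).norm
  have hln : 0 < ‖l‖ := norm_pos_iff.2 hl
  have h7 : Tendsto (fun x : ℝ => x ^ (m - r)) (𝓝[>] 0) (𝓝 ‖(A : ℂ) / l‖) := by
    refine h6.congr' ?_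
    have h8 : ∀ᶠ x : ℝ in 𝓝[>] 0, F (1 + x) ≠ 0 := by
      have h9 := h1.eventually_ne hAc
      filter_upwards [h9] with x hx h10
      simp only [Function.comp_apply] at hx
      rw [h10, zero_div] at hx
      exact hx rfl
    filter_upwards [self_mem_nhdsWithin, h8] with x hx hFx
    have hx0 : (0 : ℝ) < x := hx
    have hxc : (x : ℂ) ≠ 0 := by exact_mod_cast hx0.ne'
    simp only [Function.comp_apply, Pi.div_apply, add_sub_cancel_left]
    have e1 : F (1 + x) / (x : ℂ) ^ r / ((x : ℂ) ^ (-m) * F (1 + x)) = (x : ℂ) ^ (m - (r : ℤ)) := by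
      rw [zpow_sub₀ hxc, zpow_neg, zpow_natCast]
      have := zpow_ne_zero m hxc
      field_simp
    rw [e1, norm_zpow, Complex.norm_real, Real.norm_eq_abs, abs_of_pos hx0]
  have h8 : 0 < ‖(A : ℂ) / l‖ := norm_pos_iff.2 (div_ne_zero hAc hl)
  have h9 : m = r := by
    have := zpow_eq_zero h8 h7
    linarith
  subst h9
  refine ⟨hm.symm, ?_⟩
  refine tendsto_nhds_unique h5 (h1.congr' ?_)
  filter_upwards [self_mem_nhdsWithin] with x hx
  simp only [Function.comp_apply, add_sub_cancel_left]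
  rw [zpow_neg, zpow_natCast, div_eq_mul_inv, mul_comm]

/-- the order and the leading coefficient determine the limit -/
theorem lim_of_order {F : ℂ → ℂ} {r : ℕ} {A : ℝ} (hA : 0 < A)
    (h1 : meromorphicOrderAt F 1 = ((r : ℤ) : WithTop ℤ)) (h2 : meromorphicTrailingCoeffAt F 1 = A) :
    Tendsto (fun s => F s / (s - 1) ^ r) (𝓝[≠] 1) (𝓝 (A : ℂ)) := by
  have hF : MeromorphicAt F 1 := by
    by_contra h
    rw [meromorphicTrailingCoeffAt_of_not_MeromorphicAt h] at h2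
    exact hA.ne' (by exact_mod_cast h2.symm)
  have h4 := hF.tendsto_nhds_meromorphicTrailingCoeffAt
  rw [h1, h2, WithTop.untop₀_coe] at h4
  have h4' : Tendsto (fun s : ℂ => (s - 1) ^ (-(r : ℤ)) * F s) (𝓝[≠] 1) (𝓝 (A : ℂ)) := h4
  refine h4'.congr fun s => ?_
  rw [zpow_neg, zpow_natCast, div_eq_mul_inv, mul_comm]

/-- **The leading term and the continuation from finite products over the primes.** -/
theorem result (a b : 𝓞 K) (_hΔ : 4 * a ^ 3 + 27 * b ^ 2 ≠ 0) :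
    (∀ s : ℂ, 3 / 2 < s.re →
      HasProd (fun v : {v : HeightOneSpectrum (𝓞 K) // Good a b v} => factor a b v.1 s)
        (Lfun a b s)) ∧
    ∀ (ρ₀ : ℝ) (r : ℕ) (A : ℝ), 1 ≤ ρ₀ → 0 < A →
      ((∀ ρ ρ' : ℝ, ρ₀ < ρ → ρ < ρ' → Law a b ρ ρ' r A) ↔
        ∃ F : ℂ → ℂ, SectorialLeadingTerm a b ρ₀ r A F) ∧
      ∀ F : ℂ → ℂ, Continues a b F →
        ((∀ ρ ρ' : ℝ, ρ₀ < ρ → ρ < ρ' → Law a b ρ ρ' r A) ↔
          meromorphicOrderAt F 1 = ((r : ℤ) : WithTop ℤ) ∧ meromorphicTrailingCoeffAt F 1 = A ∧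
            ∀ s ∈ Sector ρ₀, F s ≠ 0) := by
  have E := curve_sys a b
  refine ⟨fun s hs => hasProd a b hs, fun ρ₀ r A hρ hA => ?_⟩
  have main : (∀ ρ ρ' : ℝ, ρ₀ < ρ → ρ < ρ' → Law a b ρ ρ' r A) ↔
        ∃ F : ℂ → ℂ, SectorialLeadingTerm a b ρ₀ r A F := by
    rw [← lead_iff, ← E.star_equiv (real_sums a b) hρ r hA]
    simp only [law_iff hA]
  refine ⟨main, fun F hF => ?_⟩
  rw [main]
  have hsec : ∀ s ∈ Sector ρ₀, 1 < s.re := by
    intro s hs
    have h1 := Pool.Agent.TH942.ES.sect_re' hρ ((sector_iff' ρ₀ s).1 hs)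
    rw [Complex.sub_re, Complex.one_re] at h1
    linarith
  have hL0 : ∀ s : ℂ, 3 / 2 < s.re → Lfun a b s ≠ 0 := by
    intro s hs
    rw [lfun_eq]
    exact (E.LE_diff (s := s - 1) (by rw [Complex.sub_re, Complex.one_re]; linarith)).2
  constructor
  · rintro ⟨G, h1, h2, h3⟩
    -- `F = G` in the sector
    have hFG : ∀ s ∈ Sector ρ₀, F s = G s := by
      intro s hs
      obtain ⟨ρ, hρ1, hs1⟩ := Pool.Agent.TH942.ES.exists_sect' hρ ((sector_iff' ρ₀ s).1 hs)
      have hρ2 : 1 < ρ := by linarith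
      have hsub : ∀ z ∈ Pool.Agent.TH942.SL.Sect ρ, 1 + z ∈ Sector ρ₀ := fun z hz =>
        (sector_iff ρ₀ z).2 (Pool.Agent.TH942.ES.sect_mono' hρ hρ1.le hz)
      have h4 := Pool.Agent.TH942.ES.Sys.agree hρ2 (G₁ := fun z => F (1 + z))
        (G₂ := fun z => G (1 + z))
        (fun z hz => DifferentiableAt.comp z (f := fun s : ℂ => 1 + s)
          (hF.1 _ (hsec _ (hsub z hz))) (by fun_prop))
        (fun z hz => DifferentiableAt.comp z (f := fun s : ℂ => 1 + s)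
          (h1 _ (Or.inl (hsub z hz))).1 (by fun_prop)) (σ := 1 / 2)
        (fun z _ hz => by
          have h5 : 3 / 2 < (1 + z).re := by
            rw [Complex.add_re, Complex.one_re]; linarith
          show F (1 + z) = G (1 + z)
          rw [hF.2.2 _ h5, h2 _ h5]) _ hs1
      simpa using h4
    have h5 : Tendsto (fun s => F s / (s - 1) ^ r) (𝓝[Sector (ρ₀ + 1)] 1) (𝓝 (A : ℂ)) := by
      refine (h3 (ρ₀ + 1) (by linarith)).congr' ?_
      filter_upwards [self_mem_nhdsWithin] with s hs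
      rw [hFG s]
      exact (sector_iff' _ _).2 (Pool.Agent.TH942.ES.sect_mono' hρ (by linarith)
        ((sector_iff' _ _).1 hs))
    obtain ⟨h6, h7⟩ := order_of_lim hF.2.1 (by linarith : 1 ≤ ρ₀ + 1) hA h5
    exact ⟨h6, h7, fun s hs => by rw [hFG s hs]; exact (h1 s (Or.inl hs)).2⟩
  · rintro ⟨h1, h2, h3⟩
    refine ⟨F, fun s hs => ?_, hF.2.2, fun ρ _ => (lim_of_order hA h1 h2).mono_left
      (sector_ne ρ)⟩
    rcases hs with hs | hs
    · exact ⟨hF.1 s (hsec s hs), h3 s hs⟩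
    · exact ⟨hF.1 s (by linarith), by rw [hF.2.2 s hs]; exact hL0 s hs⟩

end Pool.Agent.Results.MP_1a91b9_nt.LeadingTermLaw
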