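import Pool.Agent.Q5.OM.Pack
import Pool.Agent.Results.MP_9ab903_nt.ExactMeanSquare

/-!
# The error in the formula of Birch and Swinnerton-Dyer over number fields oscillates with amplitude at least
`1/log y`, on both sides and for a positive proportion of `y`

Let `K` be a number field, `E : y² = x³ + a x + b` an elliptic curve with `a, b ∈ 𝓞_K`, and let `F` be a continuation
of the `L`-series of `E/K` (product over the primes `v ∤ 6Δ`) to a half plane `Re s > 1 - η`, analytic except
perhaps for a pole at `s = 1`, of polynomial growth. Let `P(y) = ∏_{Nv ≤ y} #E(k_v)/Nv` be the original product of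
Birch and Swinnerton-Dyer, `P*(y)` the product with the prime powers, both with the SHARP cut-off, and for real `ρ` and
`A > 0` let `δ*(y) = log (A P*(y) / (e^γ log y)^ρ)`. Let `m_t` be the order of vanishing of `F` at `1 + it`. We write
`(L)` for the statement: `F(s)/(s - 1)^ρ → A` for `s → 1` and `F` has no zeros with `Re s > 1`.

1. UPPER BOUNDS (no hypothesis on the zeros). If `log y · δ*(y) ≤ B` for all large `y`, then `F` has no zeros with
   `Re s > 1`; and if `ρ`, `A` are the order and the leading coefficient, then `B ≥ m_t/|t|` for every `t ≠ 0`. In other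
   words `limsup log y · δ*(y) ≥ sup_t m_t/|t|` unconditionally, and `= ∞` if the Riemann hypothesis fails.
2. LOWER BOUNDS. If `F` has no REAL zeros `s > 1`, the same holds for lower bounds: `log y · δ*(y) ≥ -B` for all
   large `y` implies that `F` has no zeros with `Re s > 1`, and `B ≥ m_t/|t|` for every `t ≠ 0`, if `ρ`, `A` are the
   order and the leading coefficient.
3. POSITIVE PROPORTION. Under `(L)`, for every `t ≠ 0` and `0 ≤ c < m_t/(2|t|)` the sets `{y : log y · δ*(y) > c}` and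
   `{y : log y · δ*(y) < -c}` both have lower logarithmic density at least `(m_t/|t| - 2c)²/(4V)`, where
   `V = ∑_{t ≠ 0} m_t²/t²`.

So the product `P*(y)` takes values larger than `(1 + c/log y) (e^γ log y)^ρ/A` and values smaller than
`(1 - c/log y) (e^γ log y)^ρ/A` for a positive logarithmic proportion of all `y`, and the error `1/log y` in the
quadratic mean laws cannot be improved pointwise, not even on one side; a one-sided bound of this quality for the
product implies the Riemann hypothesis for `E/K` and bounds all zeros `1 + it` from below. All this also holds for the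
product `P` of the numbers of points, with `δ(y) = log (A e^c P(y) / (e^γ log y)^ρ)`, if
`log y · (∑_{√y < Nv ≤ y} (a_v² - 2 Nv)/(2 Nv²) - c) → 0`.

The first statement of part 1 for `K = ℚ` is in `RieszLaw` of problem `MP_696deb_nt` (starting files). The proof
(`Pool.Agent.Q5.OM`) uses the theorem of Landau on Laplace transforms of positive functions, the Fourier-Bohr
coefficients and the mean square of the error (`ExactMeanSquare` of problem `MP_9ab903_nt`) and the inequality of
Cauchy-Schwarz.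
-/

set_option autoImplicit false

namespace Pool.Agent.Results.MP_1a91b9_nt.Oscillation

open Filter Topology Set Complex NumberField IsDedekindDomain MeasureTheory
open Pool.Agent.Results.MP_ae0bd0_nt.MeanProduct (Tempered)
open Pool.Agent.Results.MP_1a91b9_nt.MeanSquareLeading (LeadingRH devStar dev squares)
open Pool.Agent.Results.MP_9ab903_nt.ExactMeanSquare (mult meanSquare SquareLaw ReadsZeros)

variable {K : Type} [Field K] [NumberField K]

/-- `F` has no zeros with `Re s > 1`. -/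
def RH (F : ℂ → ℂ) : Prop := ∀ s : ℂ, 1 < s.re → F s ≠ 0

/-- `(log Y)⁻¹ ∫_e^Y 1[W(y) > c] dy/y`, the logarithmic share of the `y ≤ Y` with `W(y) > c`. -/
noncomputable def share (W : ℝ → ℝ) (c Y : ℝ) : ℝ :=
  (∫ y in Real.exp 1..Y, (if c < W y then (1 : ℝ) else 0) / y) / Real.log Y

/-- The upper bound `log y · δ(y) ≤ B` for large `y` implies `RH F`, and, if `ρ` and `A` are the order and the leading
coefficient of `F` at `1`, that `m_t/|t| ≤ B` for all `t ≠ 0`. -/
def UpperBounds (F : ℂ → ℂ) (ρ A : ℝ) (δ : ℝ → ℝ) : Prop :=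
  ∀ B : ℝ, (∀ᶠ y : ℝ in atTop, Real.log y * δ y ≤ B) →
    RH F ∧ (LeadingRH F ρ A → ∀ t : ℝ, t ≠ 0 → (mult F t : ℝ) / |t| ≤ B)

/-- If `F` has no real zeros `> 1`: the lower bound `log y · δ(y) ≥ -B` for large `y` implies `RH F`, and, if `ρ`
and `A` are the order and the leading coefficient of `F` at `1`, that `m_t/|t| ≤ B` for all `t ≠ 0`. -/
def LowerBounds (F : ℂ → ℂ) (ρ A : ℝ) (δ : ℝ → ℝ) : Prop :=
  ∀ B : ℝ, (∀ x : ℝ, 1 < x → F x ≠ 0) → (∀ᶠ y : ℝ in atTop, -B ≤ Real.log y * δ y) →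
    RH F ∧ (LeadingRH F ρ A → ∀ t : ℝ, t ≠ 0 → (mult F t : ℝ) / |t| ≤ B)

/-- Under `LeadingRH F ρ A`, for `t ≠ 0` and `0 ≤ c < m_t/(2|t|)` the sets `{y : log y · δ(y) > c}` and
`{y : log y · δ(y) < -c}` have lower logarithmic density at least `(m_t/|t| - 2c)²/(4V)`, `V = ∑ m_t²/t²`. -/
def Densities (F : ℂ → ℂ) (ρ A : ℝ) (δ : ℝ → ℝ) : Prop :=
  LeadingRH F ρ A → ∀ V : ℝ, HasSum (fun t : ℝ => ((mult F t : ℝ) / t) ^ 2) V →
    ∀ t c : ℝ, t ≠ 0 → 0 ≤ c → 2 * c < (mult F t : ℝ) / |t| → ∀ ε : ℝ, 0 < ε → ∀ᶠ Y : ℝ in atTop,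
      ((mult F t : ℝ) / |t| - 2 * c) ^ 2 / (4 * V) - ε ≤ share (fun y => Real.log y * δ y) c Y ∧
      ((mult F t : ℝ) / |t| - 2 * c) ^ 2 / (4 * V) - ε ≤ share (fun y => -(Real.log y * δ y)) c Y

/-- All three statements. -/
def Oscillates (F : ℂ → ℂ) (ρ A : ℝ) (δ : ℝ → ℝ) : Prop :=
  UpperBounds F ρ A δ ∧ LowerBounds F ρ A δ ∧ Densities F ρ A δ

/-! ### translation -/

open Pool.Agent.Results.MP_ae0bd0_nt.MeanProduct (NN data dev_eq)
open Pool.Agent.Results.MP_1a91b9_nt.MeanSquareLeading (squares_eq)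
open Pool.Agent.Results.MP_9ab903_nt.ExactMeanSquare (dev_eqP)
open Pool.Agent.TH942.ES (alV)
open Pool.Agent.TH270.MS (Mc DvR BM)
open Pool.Agent.Q5.BP (bm_log DvP bm_dvP dvP_close)
open Pool.Agent.Q5.MS (bm_dvR)

theorem zeros {F : ℂ → ℂ} : (∀ s : ℂ, 0 < s.re → F (1 + s) ≠ 0) ↔ RH F := by
  constructor
  · intro h s hs
    have := h (s - 1) (by simpa using hs)
    rwa [add_sub_cancel] at this
  · intro h s hs
    exact h _ (by simpa using hs)

theorem oscillates {G₀ : ℂ → ℂ} {k κ : ℕ} {η C : ℝ} {X : Type} {d : ℕ} {N : X → ℕ}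
    {α : X → Fin d → ℂ} {F : ℂ → ℂ} (H : Mc N α (fun s => F (1 + s)) G₀ k κ η C) {ρ A : ℝ}
    {δ : ℝ → ℝ} (hW : BM fun y => Real.log y * δ y)
    (hcl : Tendsto (fun y : ℝ => Real.log y * -DvR N α ρ A y - Real.log y * δ y) atTop (𝓝 0))
    (h1 : LeadingRH F ρ A → SquareLaw F δ) (h2 : LeadingRH F ρ A → ReadsZeros F δ) :
    Oscillates F ρ A δ := by
  obtain ⟨k1, k2, k3⟩ := Pool.Agent.Q5.OM.om_pack H ρ A (P := LeadingRH F ρ A) (m := mult F) hW hcl
    h1 h2
  refine ⟨fun B hB => ?_, fun B hx hB => ?_, k3⟩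
  · obtain ⟨h3, h4⟩ := k1 B hB
    exact ⟨zeros.1 h3, h4⟩
  · obtain ⟨h3, h4⟩ := k2 B (fun x hx0 => by
      have := hx (1 + x) (by linarith)
      push_cast at this
      exact this) hB
    exact ⟨zeros.1 h3, h4⟩

/-- **Oscillation of the error in the formula of Birch and Swinnerton-Dyer.** -/
theorem result (a b : 𝓞 K) (hΔ : 4 * a ^ 3 + 27 * b ^ 2 ≠ 0) (F : ℂ → ℂ) (hF : Tempered a b F)
    (ρ A : ℝ) (hA : 0 < A) :
    Oscillates F ρ A (devStar a b ρ A) ∧
    ∀ c : ℝ, Tendsto (fun y : ℝ => Real.log y * (squares a b y - c)) atTop (𝓝 0) →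
      Oscillates F ρ A (dev a b ρ A c) := by
  obtain ⟨G₀, k, κ, η, C, H⟩ := data hF
  obtain ⟨⟨t1, r1⟩, t2⟩ := Pool.Agent.Results.MP_9ab903_nt.ExactMeanSquare.result a b hΔ F hF ρ A hA
  have b1 : BM fun y => Real.log y * -DvR (NN a b) (alV a b) ρ A y :=
    bm_log.mul (bm_dvR H ρ A).neg
  refine ⟨?_, fun c hc => ?_⟩
  · have e : ∀ y : ℝ, Real.exp 1 ≤ y → devStar a b ρ A y = -DvR (NN a b) (alV a b) ρ A y :=
      fun y hy => dev_eq a b hA hy
    refine oscillates H ?_ ?_ (fun h => (t1.out 0 2).1 h) r1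
    · exact Pool.Agent.Q5.OM.bm_congr b1 fun y hy => by rw [e y hy]
    · refine tendsto_const_nhds.congr' ?_
      filter_upwards [eventually_ge_atTop (Real.exp 1)] with y hy
      rw [e y hy, sub_self]
  · have e : ∀ y : ℝ, Real.exp 1 ≤ y → dev a b ρ A c y = DvP (NN a b) (alV a b) ρ A c y :=
      fun y hy => dev_eqP a b hA hy
    obtain ⟨t3, r3⟩ := t2 c hc
    have hcl := dvP_close H.E ρ A (c := c) (by rw [← squares_eq]; exact hc)
    refine oscillates H ?_ ?_ (fun h => (t3.out 0 2).1 h) r3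
    · exact Pool.Agent.Q5.OM.bm_congr (bm_log.mul (bm_dvP H ρ A c)) fun y hy => by rw [e y hy]
    · have h3 := hcl.neg
      rw [neg_zero] at h3
      refine h3.congr' ?_
      filter_upwards [eventually_ge_atTop (Real.exp 1)] with y hy
      rw [e y hy]
      ring

end Pool.Agent.Results.MP_1a91b9_nt.Oscillation
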